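import Pool.Agent.W187.UR.RefC
import Pool.Agent.W189.ML.Final

/-! Project S2 (owner helper187): the rotated original products of Birch and Swinnerton-Dyer with the
factor `√2`. Statements of the parts. -/

set_option autoImplicit false

namespace Pool.Agent.W187.S2

open Complex MeasureTheory Filter Topology Set
open scoped Classical
open Pool.Agent.W189.ML Pool.Agent.W189.LC Pool.Agent.W187.UR Pool.Agent.W263.BSD

/-- limits of contour integrals -/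
def S_JLIM : Prop := ∀ (G : ℂ → ℂ) (C γ : ℝ) (g₀ : ℂ), 0 ≤ γ →
  (∀ w : ℂ, 0 < w.re → DifferentiableAt ℂ G w) →
  (∀ w : ℂ, 0 < w.re → ‖w‖ ≤ 5 * w.re → ‖G w‖ ≤ C) →
  (∀ ζ : ℂ, 0 < ζ.re → Tendsto (fun T : ℝ => G (ζ / T)) atTop (𝓝 g₀)) →
  Tendsto (fun T : ℝ => J (2 * T) (fun z => G ((z - γ * I) / T))) atTop (𝓝 g₀)

/-- the second order terms -/
noncomputable def mt (S : Set ℕ) (A : ℕ → ℝ) (p : ℕ) (w : ℂ) : ℂ :=
  if p ∈ S then mm A p * (xp p w - xp p w ^ 2) else 0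

/-- `∑ m_p (p^{-w} - p^{-2w})` -/
noncomputable def MM (S : Set ℕ) (A : ℕ → ℝ) (w : ℂ) : ℂ := ∑' p : ℕ, mt S A p w

/-- comparison of the correction function with its second order terms -/
def S_MM : Prop := ∀ (S : Set ℕ) (A : ℕ → ℝ), EData S A →
  (∀ w : ℂ, 0 < w.re → DifferentiableAt ℂ (MM S A) w) ∧
  (∃ C : ℝ, ∀ w : ℂ, 0 < w.re → ‖w‖ ≤ 5 * w.re → ‖MM S A w‖ ≤ C) ∧
  ∀ ζ : ℂ, 0 < ζ.re → Tendsto (fun T : ℝ => GG S A (ζ / T) - MM S A (ζ / T)) atTop (𝓝 0)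

/-- the rotated kernel `e^{iγu} / Γ(1 + u)` -/
noncomputable def kk (γ u : ℝ) : ℂ := exp ((γ * u : ℝ) * I) * (om u : ℂ)

/-- the terms of the second order correction -/
noncomputable def cmt (S : Set ℕ) (A : ℕ → ℝ) (γ T : ℝ) (p : ℕ) : ℂ :=
  if p ∈ S then (mm A p : ℂ) * (kk γ (Real.log p / T) - kk γ (2 * (Real.log p / T))) else 0

/-- the contour integral of the second order terms -/
def S_JMM : Prop := ∀ (S : Set ℕ) (A : ℕ → ℝ), EData S A → ∀ γ T : ℝ, 1 ≤ T →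
  Summable (fun p => ‖cmt S A γ T p‖) ∧
  J (2 * T) (fun z => MM S A ((z - γ * I) / T)) = ∑' p : ℕ, cmt S A γ T p

/-- the refined asymptotics with a correction function -/
def S_REFG : Prop := ∀ {ι : Type} [Countable ι] (lam c : ι → ℝ) (G : ℂ → ℂ), SData lam c G →
  ∀ γ : ℝ, Real.pi / 2 < γ → ∀ (m : ℤ) (r₀ : ℂ) (L : ℂ → ℂ) (η B : ℝ), Bel m r₀ η B L →
  (∀ w : ℂ, w.re = 2 → -η ≤ w.im → w.im < 0 → G w - ser lam c w = L w) →
  ∃ C T₀ : ℝ, 0 ≤ C ∧ 1 ≤ T₀ ∧ ∀ T ≥ T₀,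
    ‖cmean lam c γ T - J (2 * T) (fun z => G ((z - γ * I) / T)) -
      (m * Real.log T - m * J 1 (fun z => log (z - γ * I)) - r₀)‖ ≤ C / T

end Pool.Agent.W187.S2
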