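import Pool.Agent.W187.S2.Stm

/-! Project S2 (owner helper187), second part: statements for the error term. -/

set_option autoImplicit false

namespace Pool.Agent.W187.S2

open Complex MeasureTheory Filter Topology Set
open Pool.Agent.W189.ML Pool.Agent.W263.BSD

/-- the correction function and its second order terms agree to first order at `0` -/
def S_LIP : Prop := ∀ (S : Set ℕ) (A : ℕ → ℝ), EData S A →
  ∃ C : ℝ, 0 ≤ C ∧ ∀ w : ℂ, 0 < w.re → ‖GG S A w - MM S A w‖ ≤ C * ‖w‖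

/-- the contour integral of a function which is `O(w)` -/
def S_JO : Prop := ∀ (G : ℂ → ℂ) (C γ : ℝ), 0 ≤ γ → 0 ≤ C →
  (∀ w : ℂ, 0 < w.re → DifferentiableAt ℂ G w) →
  (∀ w : ℂ, 0 < w.re → ‖G w‖ ≤ C * ‖w‖) →
  ∃ M : ℝ, 0 ≤ M ∧ ∀ T : ℝ, 1 + γ ≤ T → ‖J (2 * T) (fun z => G ((z - γ * I) / T))‖ ≤ M / T

/-- the kernel near `0` -/
def S_KK : Prop := ∀ c l : ℝ, 0 ≤ l → ∃ M : ℝ, 0 ≤ M ∧ ∀ T : ℝ, 1 ≤ T → ‖kk c (l / T) - 1‖ ≤ M / T

end Pool.Agent.W187.S2
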