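import Pool.Agent.W187.S2.Law
import Pool.Agent.W187.S2.Stm2

/-! Project S2: the law for the rotated original products with an error term. -/

set_option autoImplicit false

namespace Pool.Agent.W187.S2

open Complex MeasureTheory Filter Topology Set Asymptotics
open scoped Classical
open Pool.Agent.W189.ML Pool.Agent.W263.BSD Pool.Agent.W187.UR
open Pool.Agent.W189.LC hiding cf

variable {a b : ℤ} {F : ℂ → ℂ}

/-- a finite sum of quantities of size `O(1/T)` -/
theorem sum_le_div {s : Finset ℕ} {f : ℕ → ℝ → ℂ}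
    (h : ∀ p ∈ s, ∃ M : ℝ, 0 ≤ M ∧ ∀ T : ℝ, 1 ≤ T → ‖f p T‖ ≤ M / T) :
    ∃ M : ℝ, 0 ≤ M ∧ ∀ T : ℝ, 1 ≤ T → ‖∑ p ∈ s, f p T‖ ≤ M / T := by
  induction s using Finset.induction_on with
  | empty => exact ⟨0, le_rfl, fun T hT => by simp⟩
  | insert p s hps ih =>
    obtain ⟨M, hM, h1⟩ := ih fun q hq => h q (Finset.mem_insert_of_mem hq)
    obtain ⟨M', hM', h2⟩ := h p (Finset.mem_insert_self p s)
    refine ⟨M' + M, by positivity, fun T hT => ?_⟩
    rw [Finset.sum_insert hps, add_div]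
    exact (norm_add_le _ _).trans (add_le_add (h2 T hT) (h1 T hT))

theorem f1_le (hkk : S_KK) (a b : ℤ) (c : ℝ) : ∃ M : ℝ, 0 ≤ M ∧ ∀ T : ℝ, 1 ≤ T →
    ‖(∑ p ∈ Finset.range 25, f1 a b c T p) - sig a b‖ ≤ M / T := by
  have h1 : ∀ T : ℝ, (∑ p ∈ Finset.range 25, f1 a b c T p) - sig a b =
      ∑ p ∈ Finset.range 25, (if p < 25 ∧ GoodPrime a b p then
        (kk c (Real.log p / T) - 1) * (lp a b p : ℂ) else 0) := by
    intro T
    unfold sig
    rw [← Finset.sum_sub_distrib]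
    refine Finset.sum_congr rfl fun p _ => ?_
    unfold f1
    split_ifs
    · ring
    · ring
  simp only [h1]
  refine sum_le_div (f := fun p T => if p < 25 ∧ GoodPrime a b p then
        (kk c (Real.log p / T) - 1) * (lp a b p : ℂ) else 0) fun p _ => ?_
  obtain ⟨M, hM, h2⟩ := hkk c (Real.log p) (Real.log_natCast_nonneg p)
  refine ⟨M * ‖(lp a b p : ℂ)‖, by positivity, fun T hT => ?_⟩
  have hT0 : 0 < T := by linarith
  split_ifs
  · rw [norm_mul]
    calc ‖kk c (Real.log p / T) - 1‖ * ‖(lp a b p : ℂ)‖ ≤ M / T * ‖(lp a b p : ℂ)‖ :=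
          mul_le_mul_of_nonneg_right (h2 T hT) (norm_nonneg _)
      _ = _ := by ring
  · rw [norm_zero]; positivity

theorem f2_le (hkk : S_KK) (a b : ℤ) (c : ℝ) : ∃ M : ℝ, 0 ≤ M ∧ ∀ T : ℝ, 1 ≤ T →
    ‖∑ p ∈ Finset.range 25, f2 a b c T p‖ ≤ M / T := by
  refine sum_le_div (f := fun p T => f2 a b c T p) fun p _ => ?_
  have hl := Real.log_natCast_nonneg p
  obtain ⟨M, hM, h2⟩ := hkk c (Real.log p) hl
  obtain ⟨M', hM', h3⟩ := hkk c (2 * Real.log p) (by positivity)
  set q : ℂ := (((((p : ℝ) - pointCount a b p) ^ 2 - 2 * p) / (2 * (p : ℝ) ^ 2) : ℝ) : ℂ) with hq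
  refine ⟨(M + M') * ‖q‖, by positivity, fun T hT => ?_⟩
  have hT0 : 0 < T := by linarith
  beta_reduce
  unfold f2
  rw [← hq]
  split_ifs
  · have h4 := h2 T hT
    have h5 := h3 T hT
    rw [mul_div_assoc] at h5
    have h6 : kk c (Real.log p / T) - kk c (2 * (Real.log p / T)) =
        (kk c (Real.log p / T) - 1) - (kk c (2 * (Real.log p / T)) - 1) := by ring
    rw [norm_mul, h6]
    calc ‖(kk c (Real.log p / T) - 1) - (kk c (2 * (Real.log p / T)) - 1)‖ * ‖q‖ ≤
          (M / T + M' / T) * ‖q‖ :=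
          mul_le_mul_of_nonneg_right ((norm_sub_le _ _).trans (add_le_add h4 h5)) (norm_nonneg _)
      _ = _ := by ring
  · rw [norm_zero]; positivity

/-- the logarithmic form of the law with an error term -/
theorem star_addO (hlip : S_LIP) (hjo : S_JO) (hkk : S_KK) (hmm : S_MM) (hjmm : S_JMM)
    (href : S_REFG) (hF : IsLSeries a b F) {r : ℕ} (hr : analyticOrderAt F 1 = r) :
    ∃ r₀ : ℂ, exp r₀ = iteratedDeriv r F 1 / (r.factorial : ℂ) * small a b 0 ∧
      ∀ c : ℝ, Real.pi / 2 < c → (fun X : ℝ => pStar a b c X - r * Real.log (Real.log X) -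
        (-(r * Lam c) - r₀ + sig a b)) =O[atTop] (fun X : ℝ => 1 / Real.log X) := by
  obtain ⟨η, B, L, r₀, hL, hL2, hexp⟩ := phi_bel hF hr
  refine ⟨r₀, hexp, fun c hc => ?_⟩
  have hc0 : 0 ≤ c := by have := Real.pi_pos; linarith
  have E := eData a b
  have D : SData (fun p : ℕ => Real.log p) (cf a b) (GG (SS a b) (Ap a b)) := sdata E
  obtain ⟨hMd, ⟨CM, hMb⟩, hMl⟩ := hmm (SS a b) (Ap a b) E
  obtain ⟨CG, hGb⟩ := D.Gb
  obtain ⟨C, T₀, hC, hT₀, hT⟩ := href (fun p : ℕ => Real.log p) (cf a b) (GG (SS a b) (Ap a b)) D c hc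
    r r₀ L η B hL hL2
  rw [Lam_eq] at hT
  obtain ⟨C2, hC2, h2⟩ := hlip (SS a b) (Ap a b) E
  obtain ⟨M2, hM2, h3⟩ := hjo (fun w => GG (SS a b) (Ap a b) w - MM (SS a b) (Ap a b) w) C2 c hc0 hC2
    (fun w hw => (D.Gd w hw).sub (hMd w hw)) h2
  obtain ⟨M3, hM3, h4⟩ := f1_le hkk a b c
  obtain ⟨M4, hM4, h5⟩ := f2_le hkk a b c
  refine IsBigO.of_bound (C + M2 + M3 + M4) ?_
  have hlog := Real.tendsto_log_atTop
  filter_upwards [hlog.eventually (eventually_ge_atTop (1 + c)),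
    hlog.eventually (eventually_ge_atTop T₀), eventually_gt_atTop 1] with X hX hX2 hX1
  have hX1' : 1 ≤ Real.log X := by linarith
  have hX0 : 0 < Real.log X := by linarith
  have hb0 : 0 ≤ 2 * Real.log X := by linarith
  have e1 := hT (Real.log X) hX2
  have e2 := h3 (Real.log X) hX
  have e3 := h4 (Real.log X) hX1'
  have e4 := h5 (Real.log X) hX1'
  have h6 := J_sub hb0 (adm_sector hc0 D.Gd hGb hX) (adm_sector hc0 hMd hMb hX)
  rw [h6] at e2
  rw [pStar_eq hjmm c hX1 hX1', pSum_eq c hX1, Real.norm_eq_abs, abs_of_pos (by positivity :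
    0 < 1 / Real.log X), mul_one_div]
  set A1 := cmean (fun p : ℕ => Real.log p) (cf a b) c (Real.log X)
  set A2 := J (2 * Real.log X) fun z => GG (SS a b) (Ap a b) ((z - c * I) / Real.log X)
  set A3 := J (2 * Real.log X) fun z => MM (SS a b) (Ap a b) ((z - c * I) / Real.log X)
  set A4 := ∑ p ∈ Finset.range 25, f1 a b c (Real.log X) p
  set A5 := ∑ p ∈ Finset.range 25, f2 a b c (Real.log X) p
  have e5 : A1 + A4 - A3 + A5 - r * Real.log (Real.log X) - (-(r * Lam c) - r₀ + sig a b) =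
      (A1 - A2 - (((r : ℤ) : ℂ) * Real.log (Real.log X) - ((r : ℤ) : ℂ) * Lam c - r₀)) +
        (A2 - A3) + (A4 - sig a b) + A5 := by
    push_cast
    ring
  rw [e5]
  have e6 : (C + M2 + M3 + M4) / Real.log X = C / Real.log X + M2 / Real.log X +
      M3 / Real.log X + M4 / Real.log X := by ring
  rw [e6]
  refine (norm_add_le _ _).trans (add_le_add ((norm_add_le _ _).trans (add_le_add
    ((norm_add_le _ _).trans (add_le_add e1 e2)) e3)) e4)

/-- limits from error terms -/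
theorem add_of_O {P : ℝ → ℂ} {r : ℕ} {κ : ℂ}
    (h : (fun X : ℝ => P X - r * Real.log (Real.log X) - κ) =O[atTop] (fun X : ℝ => 1 / Real.log X)) :
    Tendsto (fun X : ℝ => P X - r * Real.log (Real.log X)) atTop (𝓝 κ) := by
  have h1 : Tendsto (fun X : ℝ => 1 / Real.log X) atTop (𝓝 0) :=
    tendsto_const_nhds.div_atTop Real.tendsto_log_atTop
  have h2 := (h.trans_tendsto h1).add_const κ
  rw [zero_add] at h2
  refine h2.congr fun X => ?_
  ring

/-- exponentials with error terms -/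
theorem exp_O {P : ℝ → ℂ} {r : ℕ} {κ : ℂ}
    (h : (fun X : ℝ => P X - r * Real.log (Real.log X) - κ) =O[atTop] (fun X : ℝ => 1 / Real.log X)) :
    (fun X : ℝ => exp (P X) / (Real.log X : ℂ) ^ r - exp κ) =O[atTop]
      (fun X : ℝ => 1 / Real.log X) := by
  have h1 : Tendsto (fun X : ℝ => 1 / Real.log X) atTop (𝓝 0) :=
    tendsto_const_nhds.div_atTop Real.tendsto_log_atTop
  have h2 := h.trans_tendsto h1
  have h3 : (fun X : ℝ => exp (P X) / (Real.log X : ℂ) ^ r - exp κ) =O[atTop]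
      (fun X : ℝ => P X - r * Real.log (Real.log X) - κ) := by
    refine IsBigO.of_bound (‖exp κ‖ * 2) ?_
    have h4 : ∀ᶠ X : ℝ in atTop, ‖P X - r * Real.log (Real.log X) - κ‖ < 1 := by
      have := h2.norm
      rw [norm_zero] at this
      exact this.eventually (gt_mem_nhds one_pos)
    filter_upwards [h4, Real.tendsto_log_atTop.eventually (eventually_gt_atTop 0)] with X hX hX0
    have h5 : (Real.log X : ℂ) ^ r = exp (r * Real.log (Real.log X)) := by
      rw [Complex.exp_nat_mul, ← Complex.ofReal_exp, Real.exp_log hX0]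
    have h6 : exp (P X) / (Real.log X : ℂ) ^ r - exp κ =
        exp κ * (exp (P X - r * Real.log (Real.log X) - κ) - 1) := by
      rw [h5, ← Complex.exp_sub, mul_sub, ← Complex.exp_add, mul_one]
      congr 2
      ring
    rw [h6, norm_mul, mul_assoc]
    exact mul_le_mul_of_nonneg_left (Complex.norm_exp_sub_one_le hX.le) (norm_nonneg _)
  exact h3.trans h

end Pool.Agent.W187.S2
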