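import Pool.Agent.W187.S2.StmRS
import Pool.Agent.W187.UR.NF
import Pool.Agent.W187.UR.Np

/-! Project S2: the `L`-function and its logarithm below the real axis. -/

set_option autoImplicit false

namespace Pool.Agent.W187.S2

open Complex MeasureTheory Filter Topology Set
open scoped Classical
open Pool.Agent.W189.ML Pool.Agent.W263.BSD Pool.Agent.W187.UR
open Pool.Agent.W189.LC hiding cf

variable {a b : ℤ} {F : ℂ → ℂ}

/-- factorisation at the central point -/
theorem phi_factor (hF : IsLSeries a b F) {r : ℕ} (hr : analyticOrderAt F 1 = r) :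
    iteratedDeriv r F 1 ≠ 0 ∧ small a b 0 ≠ 0 ∧
    meromorphicOrderAt (PhiF a b F) 0 = ((r : ℤ) : WithTop ℤ) ∧
    meromorphicTrailingCoeffAt (PhiF a b F) 0 =
      iteratedDeriv r F 1 / (r.factorial : ℂ) * small a b 0 := by
  have hFa : AnalyticAt ℂ F 1 := hF.1.analyticAt 1
  have hne : iteratedDeriv r F 1 ≠ 0 := by
    obtain ⟨h1, -⟩ := lead_limit hF.1 hr
    intro h0
    unfold leadAbs at h1
    rw [h0, norm_zero, zero_div] at h1
    exact lt_irrefl _ h1
  have hs0 : small a b 0 ≠ 0 := by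
    have := small_ne_zero_real (a := a) (b := b) (w := 0) le_rfl
    simpa using this
  have h1 := (natCast_le_analyticOrderAt_iff_iteratedDeriv_eq_zero hFa (n := r)).mp hr.ge
  have hfa : AnalyticAt ℂ (fun w : ℂ => F (1 + w)) 0 := by
    have : Differentiable ℂ (fun w : ℂ => F (1 + w)) := hF.1.comp (by fun_prop)
    exact this.analyticAt 0
  obtain ⟨G, hG, hG'⟩ := hfa.exists_eq_sum_add_pow_mul (r + 1)
  have h4 : ∀ i, iteratedDeriv i (fun w : ℂ => F (1 + w)) 0 = iteratedDeriv i F 1 := by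
    intro i
    rw [iteratedDeriv_comp_const_add]
    simp
  have h5 : ∀ w : ℂ, F (1 + w) = w ^ r * (iteratedDeriv r F 1 / (r.factorial : ℂ) + w * G w) := by
    intro w
    rw [hG' w, Finset.sum_range_succ, Finset.sum_eq_zero, h4, zero_add, smul_eq_mul, smul_eq_mul]
    · ring
    · intro i hi
      rw [h4, h1 i (Finset.mem_range.mp hi), smul_zero]
  set g : ℂ → ℂ := fun w => (iteratedDeriv r F 1 / (r.factorial : ℂ) + w * G w) * small a b w with hg
  have hga : AnalyticAt ℂ g 0 :=
    (analyticAt_const.add (analyticAt_id.mul hG)).mul (small_differentiable.analyticAt 0)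
  have hg0 : g 0 = iteratedDeriv r F 1 / (r.factorial : ℂ) * small a b 0 := by
    rw [hg]; simp
  have hg0' : g 0 ≠ 0 := by
    rw [hg0]
    refine mul_ne_zero (div_ne_zero hne ?_) hs0
    exact_mod_cast r.factorial_ne_zero
  have he : PhiF a b F =ᶠ[𝓝[≠] 0] fun z => (z - 0) ^ (r : ℤ) • g z := by
    refine Eventually.of_forall fun w => ?_
    simp only [sub_zero, zpow_natCast, smul_eq_mul]
    rw [hg]
    unfold PhiF
    rw [h5]
    ring
  refine ⟨hne, hs0, ?_, ?_⟩
  · have hm : MeromorphicAt (PhiF a b F) 0 := ((PhiF_differentiable hF).analyticAt 0).meromorphicAt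
    rw [meromorphicOrderAt_eq_int_iff hm]
    exact ⟨g, hga, hg0', he⟩
  · rw [hga.meromorphicTrailingCoeffAt_of_ne_zero_of_eq_nhdsNE hg0' he, hg0]

/-- the logarithm below the segment -/
theorem phi_bel (hF : IsLSeries a b F) {r : ℕ} (hr : analyticOrderAt F 1 = r) :
    ∃ (η B : ℝ) (L : ℂ → ℂ) (r₀ : ℂ), Bel (r : ℤ) r₀ η B L ∧
      (∀ w : ℂ, w.re = 2 → -η ≤ w.im → w.im < 0 →
        GG (SS a b) (Ap a b) w - ser (fun p : ℕ => Real.log p) (cf a b) w = L w) ∧
      exp r₀ = iteratedDeriv r F 1 / (r.factorial : ℂ) * small a b 0 := by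
  have E := eData a b
  set g : ℂ → ℂ := fun w => GG (SS a b) (Ap a b) w - ser (fun p : ℕ => Real.log p) (cf a b) w with hg
  have hPa : ∀ z, AnalyticAt ℂ (PhiF a b F) z := fun z => (PhiF_differentiable hF).analyticAt z
  have hopen : IsOpen {z : ℂ | 0 < z.re} := isOpen_lt continuous_const Complex.continuous_re
  have hga : ∀ w : ℂ, 1 < w.re → AnalyticAt ℂ g w := by
    intro w hw
    have h1 : DifferentiableOn ℂ (GG (SS a b) (Ap a b)) {z : ℂ | 0 < z.re} := fun z hz =>
      (E.GG_differentiable hz).differentiableWithinAt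
    have h2 : AnalyticAt ℂ (GG (SS a b) (Ap a b)) w :=
      h1.analyticAt (hopen.mem_nhds (show 0 < w.re by linarith))
    exact h2.sub (ser_analytic (fun p => Real.log_natCast_nonneg p) (cf_sum a b) hw)
  have hge : ∀ w : ℂ, 1 < w.re → PhiF a b F w = Complex.exp (g w) := fun w hw =>
    (exp_eq E hw (PhiF_hasProd hF hw)).symm
  have hgr : ∀ x : ℝ, 1 < x → (g x).im = 0 := by
    intro x hx
    rw [hg]
    simp only [Complex.sub_im]
    rw [E.GG_im (by linarith : 0 < x), ser_real, sub_zero]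
  have hone : PhiF a b F 2 ≠ 0 := by
    rw [hge 2 (by norm_num)]
    exact Complex.exp_ne_zero _
  have htop : ∀ z, analyticOrderAt (PhiF a b F) z ≠ ⊤ := by
    intro z h
    rw [analyticOrderAt_eq_top] at h
    have h1 : AnalyticOnNhd ℂ (PhiF a b F) univ := fun z _ => hPa z
    have h2 := h1.eqOn_zero_of_preconnected_of_eventuallyEq_zero isPreconnected_univ
      (mem_univ z) h
    exact hone (h2 (mem_univ _))
  have hmer : ∀ x ∈ Icc (0 : ℝ) 2, meromorphicOrderAt (PhiF a b F) (x : ℂ) ≠ ⊤ := by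
    intro x _
    rw [(hPa x).meromorphicOrderAt_eq]
    intro h
    refine htop x ?_
    cases h3 : analyticOrderAt (PhiF a b F) (x : ℂ) with
    | top => rfl
    | coe n => rw [h3] at h; simp at h
  obtain ⟨hne, hs0, hord, htc⟩ := phi_factor hF hr
  obtain ⟨η, B, L, r₀, hL, hL2, hexp, -⟩ := belc facc (PhiF a b F) g
    (fun x _ => (hPa x).meromorphicAt) hmer hga hge hgr r hord
  exact ⟨η, B, L, r₀, hL, hL2, by rw [hexp, htc]⟩

end Pool.Agent.W187.S2
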