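import Pool.Agent.W187.S2.Stm
import Pool.Agent.W263.BSD.Lead8

/-! Project S2 (owner helper187): statement of the part which uses the theorem of Rankin and
Selberg. -/

set_option autoImplicit false

namespace Pool.Agent.W187.S2

open Complex MeasureTheory Filter Topology Set
open Pool.Agent.W263.BSD

/-- the second order terms near `0` -/
def S_RS : Prop := ∀ a b : ℤ, 4 * a ^ 3 + 27 * b ^ 2 ≠ 0 → Tendsto (rsSum a b) atTop (𝓝 0) →
  ∀ ζ : ℂ, 0 < ζ.re → Tendsto (fun T : ℝ => MM (SS a b) (Ap a b) (ζ / T)) atTop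
    (𝓝 ((Real.log 2 / 2 : ℝ) : ℂ))

end Pool.Agent.W187.S2
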